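import Pool.Agent.Q289.OP.Defs

/-!
# Project OP (jobs of helper289): local variances of the discrete model
-/

set_option autoImplicit false

namespace Pool.Agent.Q137.OP

open MeasureTheory Set Filter Topology Q289.OP

section

variable {ι : Type} [Fintype ι] [DecidableEq ι] [PartialOrder ι] {N : ℕ}

/-- A single label in the cells `a`, `a + 1`. -/
theorem vsu_aux (a : Fin N)
    (c : ι → Fin (N + 1)) (i : ι) (hi : c i = a.castSucc)
    (hj : ∀ j, j ≠ i → c j ≠ a.castSucc ∧ c j ≠ a.succ) :
    (VS fun j => ((Function.update c i a.succ j : Fin (N + 1)) : ℕ)) = (VS fun j => (c j : ℕ)) ∧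
      (Monotone (Function.update c i a.succ) ↔ Monotone c) := by
  have hA : ∀ l, l ≠ i → ((c l : ℕ) < (a : ℕ) ∨ (a : ℕ) + 1 < (c l : ℕ)) := by
    intro l hl
    obtain ⟨h1, h2⟩ := hj l hl
    have h1' : (c l : ℕ) ≠ (a : ℕ) := fun h => h1 (Fin.ext (by simpa using h))
    have h2' : (c l : ℕ) ≠ (a : ℕ) + 1 := fun h => h2 (Fin.ext (by simpa using h))
    omega
  have hv : ∀ l, ((Function.update c i a.succ l : Fin (N + 1)) : ℕ) =
      if l = i then (a : ℕ) + 1 else (c l : ℕ) := by
    intro l
    by_cases h : l = i
    · subst h; simp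
    · simp [h]
  have hci : (c i : ℕ) = (a : ℕ) := by rw [hi]; simp
  constructor
  · ext u
    simp only [VS, Set.mem_ofPred_eq]
    refine and_congr_right fun hu => ?_
    have hlt : ∀ (m n : ℕ) (k l : ι), m < n → ((m : ℝ) + u k ≤ (n : ℝ) + u l) := by
      intro m n k l h
      have h1 : ((m : ℝ) + 1) ≤ n := by exact_mod_cast h
      have h2 := (hu k).2
      have h3 := (hu l).1
      linarith
    have hnl : ∀ (m n : ℕ) (k l : ι), m < n → ¬ ((n : ℝ) + u k ≤ (m : ℝ) + u l) := by
      intro m n k l h h0
      have h1 : ((m : ℝ) + 1) ≤ n := by exact_mod_cast h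
      have h2 := (hu l).2
      have h3 := (hu k).1
      linarith
    refine forall_congr' fun k => forall_congr' fun l => imp_congr_right fun _ => ?_
    simp only [hv]
    by_cases hk : k = i
    · by_cases hl : l = i
      · subst hk; subst hl; simp
      · rw [if_pos hk, if_neg hl, hk, hci]
        rcases hA l hl with h | h
        · constructor
          · intro h0; exact absurd h0 (hnl _ _ _ _ (by omega))
          · intro h0; exact absurd h0 (hnl _ _ _ _ (by omega))
        · constructor
          · intro _; exact hlt _ _ _ _ (by omega)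
          · intro _; exact hlt _ _ _ _ (by omega)
    · by_cases hl : l = i
      · rw [if_neg hk, if_pos hl, hl, hci]
        rcases hA k hk with h | h
        · constructor
          · intro _; exact hlt _ _ _ _ (by omega)
          · intro _; exact hlt _ _ _ _ (by omega)
        · constructor
          · intro h0; exact absurd h0 (hnl _ _ _ _ (by omega))
          · intro h0; exact absurd h0 (hnl _ _ _ _ (by omega))
      · rw [if_neg hk, if_neg hl]
  · refine forall_congr' fun k => forall_congr' fun l => imp_congr_right fun _ => ?_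
    rw [Fin.le_def, Fin.le_def, hv, hv]
    by_cases hk : k = i
    · by_cases hl : l = i
      · subst hk; subst hl; simp
      · rw [if_pos hk, if_neg hl, hk, hci]
        have := hA l hl
        omega
    · by_cases hl : l = i
      · rw [if_neg hk, if_pos hl, hl, hci]
        have := hA k hk
        omega
      · rw [if_neg hk, if_neg hl]

/-- `VS c` is empty if `c` is not order preserving. -/
theorem VS_empty (c : ι → ℕ) (h : ¬ Monotone c) : VS c = ∅ := by
  rw [Set.eq_empty_iff_forall_notMem]
  rintro u ⟨hu, hm⟩
  apply h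
  intro k l hkl
  by_contra hlt
  push Not at hlt
  have h0 := hm hkl
  simp only at h0
  have h1 : ((c l : ℝ) + 1) ≤ c k := by exact_mod_cast hlt
  have h2 := (hu l).2
  have h3 := (hu k).1
  linarith

theorem vv_zero (c : ι → ℕ) (h : ¬ Monotone c) : vv c = 0 := by
  rw [vv, VS_empty c h]; simp

theorem mono_val (c : ι → Fin (N + 1)) : Monotone (fun i => (c i : ℕ)) ↔ Monotone c := Iff.rfl

theorem ww_zero (q : Fin (N + 1) → ℝ) (c : ι → Fin (N + 1)) (h : ¬ Monotone c) : ww q c = 0 := by
  rw [ww, vv_zero _ (fun h' => h ((mono_val c).1 h')), mul_zero]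

theorem ww_nonneg (q : Fin (N + 1) → ℝ) (hq : ∀ b, 0 < q b) (c : ι → Fin (N + 1)) : 0 ≤ ww q c :=
  mul_nonneg (Finset.prod_nonneg fun i _ => (hq _).le) ENNReal.toReal_nonneg

/-- the weights of the two configurations -/
theorem ww_update (q : Fin (N + 1) → ℝ) (hq : ∀ b, 0 < q b) (a : Fin N) (c : ι → Fin (N + 1)) (i : ι)
    (hi : c i = a.castSucc) (hj : ∀ j, j ≠ i → c j ≠ a.castSucc ∧ c j ≠ a.succ) :
    ww q (Function.update c i a.succ) * q a.castSucc = ww q c * q a.succ := by
  have h1 := (vsu_aux a c i hi hj).1
  have h2 : vv (fun j => ((Function.update c i a.succ j : Fin (N + 1)) : ℕ)) = vv (fun j => (c j : ℕ)) := by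
    rw [vv, vv, h1]
  rw [ww, ww, h2]
  have h3 : ∏ j, q (Function.update c i a.succ j) = q a.succ * ∏ j ∈ Finset.univ.erase i, q (c j) := by
    rw [← Finset.mul_prod_erase Finset.univ _ (Finset.mem_univ i)]
    congr 1
    · simp
    · refine Finset.prod_congr rfl fun j hj => ?_
      rw [Function.update_of_ne (Finset.ne_of_mem_erase hj)]
  have h4 : ∏ j, q (c j) = q a.castSucc * ∏ j ∈ Finset.univ.erase i, q (c j) := by
    rw [← Finset.mul_prod_erase Finset.univ _ (Finset.mem_univ i), hi]
  rw [h3, h4]; ring

theorem castSucc_ne_succ' (a : Fin N) : a.castSucc ≠ a.succ := by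
  intro h
  have := congrArg Fin.val h
  simp at this

/-- the class of a configuration with a single label -/
theorem blk_single (a : Fin N) (c d : ι → Fin (N + 1)) (i : ι)
    (hi : c i = a.castSucc) (hj : ∀ j, j ≠ i → c j ≠ a.castSucc ∧ c j ≠ a.succ) :
    blk a c d ↔ d = c ∨ d = Function.update c i a.succ := by
  constructor
  · intro h
    have h1 : ∀ j, j ≠ i → d j = c j := by
      intro j hji
      rcases h j with h2 | ⟨h2 | h2, _⟩
      · exact h2
      · exact absurd h2 (hj j hji).1
      · exact absurd h2 (hj j hji).2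
    rcases h i with h2 | ⟨_, h2 | h2⟩
    · left; funext j
      by_cases hji : j = i
      · rw [hji, h2]
      · exact h1 j hji
    · left; funext j
      by_cases hji : j = i
      · rw [hji, h2, hi]
      · exact h1 j hji
    · right; funext j
      by_cases hji : j = i
      · rw [hji, h2]; simp
      · rw [h1 j hji, Function.update_of_ne hji]
  · rintro (h | h)
    · subst h; intro j; left; rfl
    · subst h; intro j
      by_cases hji : j = i
      · right; subst hji; simp [hi]
      · left; rw [Function.update_of_ne hji]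

theorem blk_single' (a : Fin N) (c d : ι → Fin (N + 1)) (i : ι)
    (hi : c i = a.castSucc) (hj : ∀ j, j ≠ i → c j ≠ a.castSucc ∧ c j ≠ a.succ) :
    blk a (Function.update c i a.succ) d ↔ d = c ∨ d = Function.update c i a.succ := by
  rw [← blk_single a c d i hi hj]
  unfold blk
  refine forall_congr' fun j => ?_
  by_cases hji : j = i
  · subst hji
    simp only [Function.update_self, hi]
    constructor
    · rintro (h | h)
      · right; exact ⟨Or.inl trivial, Or.inr h⟩
      · right; exact ⟨Or.inl trivial, h.2⟩
    · rintro (h | h)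
      · right; exact ⟨Or.inr trivial, Or.inl h⟩
      · right; exact ⟨Or.inr trivial, h.2⟩
  · rw [Function.update_of_ne hji]

open Classical in
theorem sum_pair' {α : Type} [Fintype α] (x y : α) (hxy : x ≠ y) (P : α → Prop) (hP : ∀ d, P d ↔ d = x ∨ d = y)
    (f : α → ℝ) : (∑ d, if P d then f d else 0) = f x + f y := by
  rw [← Finset.sum_filter]
  have : Finset.univ.filter P = {x, y} := by
    ext d; simp [hP]
  rw [this, Finset.sum_pair hxy]

open Classical in
theorem upd_ne (a : Fin N) (c : ι → Fin (N + 1)) (i : ι) (hi : c i = a.castSucc) :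
    c ≠ Function.update c i a.succ := by
  intro h
  have := congrFun h i
  rw [Function.update_self, hi] at this
  exact castSucc_ne_succ' a this

/-- the local variance of a pair -/
theorem pair_var (q : Fin (N + 1) → ℝ) (hq : ∀ b, 0 < q b) (F : (ι → Fin (N + 1)) → ℝ) (a : Fin N)
    (c : ι → Fin (N + 1)) (i : ι)
    (hi : c i = a.castSucc) (hj : ∀ j, j ≠ i → c j ≠ a.castSucc ∧ c j ≠ a.succ) :
    ww q c * (F c - cE (ww q) a F c) ^ 2 + ww q (Function.update c i a.succ) *
      (F (Function.update c i a.succ) - cE (ww q) a F (Function.update c i a.succ)) ^ 2 =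
      ww q c * (q a.succ / (q a.castSucc + q a.succ)) * (F (Function.update c i a.succ) - F c) ^ 2 := by
  classical
  have h1 : cE (ww q) a F c = (ww q c * F c + ww q (Function.update c i a.succ) * F (Function.update c i a.succ)) /
      (ww q c + ww q (Function.update c i a.succ)) := by
    rw [cE]
    congr 1
    · exact sum_pair' c _ (upd_ne a c i hi) _ (fun d => blk_single a c d i hi hj) (fun d => ww q d * F d)
    · exact sum_pair' c _ (upd_ne a c i hi) _ (fun d => blk_single a c d i hi hj) (fun d => ww q d)
  have h2 : cE (ww q) a F (Function.update c i a.succ) =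
      (ww q c * F c + ww q (Function.update c i a.succ) * F (Function.update c i a.succ)) /
      (ww q c + ww q (Function.update c i a.succ)) := by
    rw [cE]
    congr 1
    · exact sum_pair' c _ (upd_ne a c i hi) _ (fun d => blk_single' a c d i hi hj) (fun d => ww q d * F d)
    · exact sum_pair' c _ (upd_ne a c i hi) _ (fun d => blk_single' a c d i hi hj) (fun d => ww q d)
  rw [h1, h2]
  have h3 := ww_update q hq a c i hi hj
  set w := ww q c with hw
  set w' := ww q (Function.update c i a.succ) with hw'
  set x := F c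
  set y := F (Function.update c i a.succ)
  have hqa := hq a.castSucc
  have hqb := hq a.succ
  set p := q a.castSucc with hp
  set r := q a.succ with hr
  have h4 : w' = w * r / p := by field_simp; linarith
  rcases eq_or_ne w 0 with h0 | h0
  · rw [h4, h0]; simp
  · rw [h4]
    have h5 : w + w * r / p = w * (p + r) / p := by field_simp
    have h6 : (w * x + w * r / p * y) / (w + w * r / p) = (p * x + r * y) / (p + r) := by
      rw [h5]; field_simp
    rw [h6]
    field_simp
    ring

open Classical in
/-- the two kinds of single configurations correspond to each other -/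
theorem sum_swap (a : Fin N) (i : ι) (T : (ι → Fin (N + 1)) → ℝ) :
    (∑ c : ι → Fin (N + 1), if c i = a.succ ∧ ∀ j, j ≠ i → c j ≠ a.castSucc ∧ c j ≠ a.succ then T c else 0) =
      ∑ c : ι → Fin (N + 1), if c i = a.castSucc ∧ ∀ j, j ≠ i → c j ≠ a.castSucc ∧ c j ≠ a.succ then
        T (Function.update c i a.succ) else 0 := by
  rw [← Finset.sum_filter, ← Finset.sum_filter]
  refine Finset.sum_nbij' (fun c => Function.update c i a.castSucc) (fun c => Function.update c i a.succ) ?_ ?_ ?_ ?_ ?_
  · intro c hc
    simp only [Finset.mem_filter, Finset.mem_univ, true_and] at hc ⊢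
    refine ⟨by simp, fun j hj => ?_⟩
    rw [Function.update_of_ne hj]
    exact hc.2 j hj
  · intro c hc
    simp only [Finset.mem_filter, Finset.mem_univ, true_and] at hc ⊢
    refine ⟨by simp, fun j hj => ?_⟩
    rw [Function.update_of_ne hj]
    exact hc.2 j hj
  · intro c hc
    simp only [Finset.mem_filter, Finset.mem_univ, true_and] at hc
    rw [Function.update_idem, ← hc.1, Function.update_eq_self]
  · intro c hc
    simp only [Finset.mem_filter, Finset.mem_univ, true_and] at hc
    rw [Function.update_idem, ← hc.1, Function.update_eq_self]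
  · intro c hc
    simp only [Finset.mem_filter, Finset.mem_univ, true_and] at hc
    rw [Function.update_idem, ← hc.1, Function.update_eq_self]

open Classical in
theorem l1_aux (q : Fin (N + 1) → ℝ) (hq : ∀ b, 0 < q b) (F : (ι → Fin (N + 1)) → ℝ) :
    lv (ww q) F ≤
      (∑ a : Fin N, ∑ i : ι, ∑ c : ι → Fin (N + 1),
        if c i = a.castSucc ∧ Monotone c ∧ ∀ j, j ≠ i → c j ≠ a.castSucc ∧ c j ≠ a.succ then
          ww q c * (q a.succ / (q a.castSucc + q a.succ)) * (F (Function.update c i a.succ) - F c) ^ 2
        else 0) +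
      ∑ a : Fin N, ∑ c : ι → Fin (N + 1),
        if ∃ i j : ι, i ≠ j ∧ (c i = a.castSucc ∨ c i = a.succ) ∧ (c j = a.castSucc ∨ c j = a.succ) then
          ww q c * (F c - cE (ww q) a F c) ^ 2 else 0 := by
  rw [lv, ← Finset.sum_add_distrib]
  refine Finset.sum_le_sum fun a _ => ?_
  set T : (ι → Fin (N + 1)) → ℝ := fun c => ww q c * (F c - cE (ww q) a F c) ^ 2 with hT
  have hT0 : ∀ c, 0 ≤ T c := fun c => mul_nonneg (ww_nonneg q hq c) (sq_nonneg _)
  have key : ∀ c : ι → Fin (N + 1), T c ≤
      (∑ i, if c i = a.castSucc ∧ ∀ j, j ≠ i → c j ≠ a.castSucc ∧ c j ≠ a.succ then T c else 0) +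
      (∑ i, if c i = a.succ ∧ ∀ j, j ≠ i → c j ≠ a.castSucc ∧ c j ≠ a.succ then T c else 0) +
      (if ∃ i j : ι, i ≠ j ∧ (c i = a.castSucc ∨ c i = a.succ) ∧ (c j = a.castSucc ∨ c j = a.succ) then
        T c else 0) := by
    intro c
    have hp1 : 0 ≤ ∑ i, if c i = a.castSucc ∧ ∀ j, j ≠ i → c j ≠ a.castSucc ∧ c j ≠ a.succ then T c else 0 :=
      Finset.sum_nonneg fun i _ => by split_ifs <;> [exact hT0 c; exact le_rfl]
    have hp2 : 0 ≤ ∑ i, if c i = a.succ ∧ ∀ j, j ≠ i → c j ≠ a.castSucc ∧ c j ≠ a.succ then T c else 0 :=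
      Finset.sum_nonneg fun i _ => by split_ifs <;> [exact hT0 c; exact le_rfl]
    by_cases h2 : ∃ i j : ι, i ≠ j ∧ (c i = a.castSucc ∨ c i = a.succ) ∧ (c j = a.castSucc ∨ c j = a.succ)
    · rw [if_pos h2]; linarith
    · rw [if_neg h2]
      by_cases h1 : ∃ i, c i = a.castSucc ∨ c i = a.succ
      · obtain ⟨i, hi⟩ := h1
        have hU : ∀ j, j ≠ i → c j ≠ a.castSucc ∧ c j ≠ a.succ := by
          intro j hj
          constructor
          · intro h; exact h2 ⟨i, j, hj.symm, hi, Or.inl h⟩
          · intro h; exact h2 ⟨i, j, hj.symm, hi, Or.inr h⟩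
        rcases hi with hi | hi
        · have : T c ≤ ∑ i, if c i = a.castSucc ∧ ∀ j, j ≠ i → c j ≠ a.castSucc ∧ c j ≠ a.succ then T c else 0 := by
            refine le_trans (le_of_eq ?_) (Finset.single_le_sum (fun i _ => ?_) (Finset.mem_univ i))
            · rw [if_pos ⟨hi, hU⟩]
            · split_ifs <;> [exact hT0 c; exact le_rfl]
          linarith
        · have : T c ≤ ∑ i, if c i = a.succ ∧ ∀ j, j ≠ i → c j ≠ a.castSucc ∧ c j ≠ a.succ then T c else 0 := by
            refine le_trans (le_of_eq ?_) (Finset.single_le_sum (fun i _ => ?_) (Finset.mem_univ i))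
            · rw [if_pos ⟨hi, hU⟩]
            · split_ifs <;> [exact hT0 c; exact le_rfl]
          linarith
      · -- no label: the local variance vanishes
        have hblk : ∀ d, blk a c d ↔ d = c := by
          intro d
          constructor
          · intro h
            funext j
            rcases h j with h3 | ⟨h3, _⟩
            · exact h3
            · exact absurd ⟨j, h3⟩ h1
          · rintro rfl j; left; rfl
        have hT1 : T c = 0 := by
          simp only [hT]
          rcases eq_or_ne (ww q c) 0 with h0 | h0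
          · rw [h0, zero_mul]
          · have : cE (ww q) a F c = F c := by
              rw [cE]
              simp only [hblk, Finset.sum_ite_eq', Finset.mem_univ, if_true]
              field_simp
            rw [this]; simp
        rw [hT1]
        simp
  calc ∑ c, T c ≤ ∑ c : ι → Fin (N + 1),
      ((∑ i, if c i = a.castSucc ∧ ∀ j, j ≠ i → c j ≠ a.castSucc ∧ c j ≠ a.succ then T c else 0) +
      (∑ i, if c i = a.succ ∧ ∀ j, j ≠ i → c j ≠ a.castSucc ∧ c j ≠ a.succ then T c else 0) +
      (if ∃ i j : ι, i ≠ j ∧ (c i = a.castSucc ∨ c i = a.succ) ∧ (c j = a.castSucc ∨ c j = a.succ) then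
        T c else 0)) := Finset.sum_le_sum fun c _ => key c
    _ = (∑ i : ι, ∑ c : ι → Fin (N + 1),
        ((if c i = a.castSucc ∧ ∀ j, j ≠ i → c j ≠ a.castSucc ∧ c j ≠ a.succ then T c else 0) +
        (if c i = a.castSucc ∧ ∀ j, j ≠ i → c j ≠ a.castSucc ∧ c j ≠ a.succ then T (Function.update c i a.succ) else 0)))
        + ∑ c : ι → Fin (N + 1), (if ∃ i j : ι, i ≠ j ∧ (c i = a.castSucc ∨ c i = a.succ) ∧
          (c j = a.castSucc ∨ c j = a.succ) then T c else 0) := by
        rw [Finset.sum_add_distrib, Finset.sum_add_distrib, Finset.sum_comm]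
        congr 1
        rw [Finset.sum_comm (f := fun c i => if c i = a.succ ∧ ∀ j, j ≠ i → c j ≠ a.castSucc ∧ c j ≠ a.succ
          then T c else 0)]
        rw [← Finset.sum_add_distrib]
        refine Finset.sum_congr rfl fun i _ => ?_
        rw [sum_swap, ← Finset.sum_add_distrib]
    _ = _ := by
        congr 1
        refine Finset.sum_congr rfl fun i _ => Finset.sum_congr rfl fun c _ => ?_
        by_cases h : c i = a.castSucc ∧ ∀ j, j ≠ i → c j ≠ a.castSucc ∧ c j ≠ a.succ
        · rw [if_pos h, if_pos h]
          have h1 := pair_var q hq F a c i h.1 h.2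
          by_cases hm : Monotone c
          · rw [if_pos ⟨h.1, hm, h.2⟩]
            exact h1
          · rw [if_neg (fun h' => hm h'.2.1)]
            simp only [hT]
            rw [h1, ww_zero q c hm]; simp
        · rw [if_neg h, if_neg h, if_neg (fun h' => h ⟨h'.1, h'.2.2⟩)]; simp

end

end Pool.Agent.Q137.OP
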