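import Pool.Agent.Q137.OP.L1
import Pool.Agent.Q289.OP.Stm

/-!
# Project OP (jobs of helper289): local variances, two labels
-/

set_option autoImplicit false

namespace Pool.Agent.Q137.OP

open MeasureTheory Set Filter Topology Q289.OP

section

variable {ι : Type} [Fintype ι] [DecidableEq ι] [PartialOrder ι] {N : ℕ}

open Classical in
/-- the conditional expectation is close to the values -/
theorem cE_close (hv : ∀ c : ι → ℕ, 0 ≤ vv c ∧ vv c ≤ 1 ∧ (0 < vv c ↔ Monotone c))
    (q : Fin (N + 1) → ℝ) (hq : ∀ b, 0 < q b) (F : (ι → Fin (N + 1)) → ℝ) (ω : ℝ)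
    (hF : ∀ (a : Fin N) (c d : ι → Fin (N + 1)), Monotone c → Monotone d → blk a c d → |F c - F d| ≤ ω)
    (a : Fin N) (c : ι → Fin (N + 1)) (hc : Monotone c) : |F c - cE (ww q) a F c| ≤ ω := by
  have hpos : ∀ d : ι → Fin (N + 1), 0 < ww q d ↔ Monotone d := by
    intro d
    have h1 : 0 < ∏ i, q (d i) := Finset.prod_pos fun i _ => hq _
    rw [ww, mul_pos_iff_of_pos_left h1, (hv _).2.2]
    exact mono_val d
  have hcc : blk a c c := fun i => Or.inl rfl
  have hD : 0 < ∑ d, if blk a c d then ww q d else 0 := by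
    refine lt_of_lt_of_le ((hpos c).2 hc) ?_
    refine le_trans (le_of_eq ?_) (Finset.single_le_sum (fun d _ => ?_) (Finset.mem_univ c))
    · rw [if_pos hcc]
    · split_ifs
      · exact ww_nonneg q hq d
      · exact le_rfl
  have h1 : F c - cE (ww q) a F c = (∑ d, if blk a c d then ww q d * (F c - F d) else 0) /
      ∑ d, if blk a c d then ww q d else 0 := by
    rw [cE, eq_div_iff hD.ne', sub_mul, div_mul_cancel₀ _ hD.ne', Finset.mul_sum, ← Finset.sum_sub_distrib]
    refine Finset.sum_congr rfl fun d _ => ?_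
    split_ifs
    · ring
    · ring
  rw [h1, abs_div, abs_of_pos hD, div_le_iff₀ hD, Finset.mul_sum]
  refine (Finset.abs_sum_le_sum_abs _ _).trans (Finset.sum_le_sum fun d _ => ?_)
  split_ifs with hb
  · rw [abs_mul, abs_of_nonneg (ww_nonneg q hq d), mul_comm ω]
    by_cases hd : Monotone d
    · exact mul_le_mul_of_nonneg_left (hF a c d hc hd hb) (ww_nonneg q hq d)
    · rw [ww_zero q d hd]; simp
  · simp

open Classical in
/-- the weight of the configurations with the labels `i`, `j` in the cells `a`, `a + 1` -/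
theorem sum_two (q : Fin (N + 1) → ℝ) (a : Fin N) (i j : ι) (hij : i ≠ j) :
    (∑ b, q b) ^ 2 * (∑ c : ι → Fin (N + 1),
      if (c i = a.castSucc ∨ c i = a.succ) ∧ (c j = a.castSucc ∨ c j = a.succ) then ∏ k, q (c k) else 0) =
      (q a.castSucc + q a.succ) ^ 2 * (∑ b, q b) ^ Fintype.card ι := by
  set g : ι → Fin (N + 1) → ℝ := fun k b => if (k = i ∨ k = j) then
    (if b = a.castSucc ∨ b = a.succ then q b else 0) else q b with hg
  have h1 : ∀ c : ι → Fin (N + 1),
      (if (c i = a.castSucc ∨ c i = a.succ) ∧ (c j = a.castSucc ∨ c j = a.succ) then ∏ k, q (c k) else 0) =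
      ∏ k, g k (c k) := by
    intro c
    split_ifs with h
    · refine Finset.prod_congr rfl fun k _ => ?_
      simp only [hg]
      split_ifs with h2 h3
      · rfl
      · exfalso
        rcases h2 with h2 | h2
        · subst h2; exact h3 h.1
        · subst h2; exact h3 h.2
      · rfl
    · symm
      rw [not_and_or] at h
      rcases h with h | h
      · refine Finset.prod_eq_zero (Finset.mem_univ i) ?_
        simp only [hg, true_or, if_true]
        rw [if_neg h]
      · refine Finset.prod_eq_zero (Finset.mem_univ j) ?_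
        simp only [hg, or_true, if_true]
        rw [if_neg h]
  rw [Finset.sum_congr rfl fun c _ => h1 c, ← Fintype.prod_sum]
  have hs : (∑ b, if b = a.castSucc ∨ b = a.succ then q b else 0) = q a.castSucc + q a.succ := by
    have := sum_pair' a.castSucc a.succ (castSucc_ne_succ' a) _ (fun d => Iff.rfl) q
    convert this
  have h2 : ∀ k, ∑ b, g k b = if (k = i ∨ k = j) then q a.castSucc + q a.succ else ∑ b, q b := by
    intro k
    by_cases h : (k = i ∨ k = j)
    · rw [if_pos h, ← hs]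
      refine Finset.sum_congr rfl fun b _ => ?_
      simp only [hg]
      rw [if_pos h]
    · rw [if_neg h]
      refine Finset.sum_congr rfl fun b _ => ?_
      simp only [hg]
      rw [if_neg h]
  rw [Finset.prod_congr rfl fun k _ => h2 k]
  have hjm : j ∈ (Finset.univ : Finset ι).erase i := Finset.mem_erase.2 ⟨hij.symm, Finset.mem_univ j⟩
  rw [← Finset.mul_prod_erase Finset.univ _ (Finset.mem_univ i), ← Finset.mul_prod_erase _ _ hjm,
    if_pos (Or.inl rfl), if_pos (Or.inr rfl)]
  have h3 : ∏ x ∈ ((Finset.univ : Finset ι).erase i).erase j,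
      (if (x = i ∨ x = j) then q a.castSucc + q a.succ else ∑ b, q b) =
      ∏ x ∈ ((Finset.univ : Finset ι).erase i).erase j, (∑ b, q b) := by
    refine Finset.prod_congr rfl fun x hx => ?_
    rw [Finset.mem_erase, Finset.mem_erase] at hx
    rw [if_neg]
    rintro (h | h)
    · exact hx.2.1 h
    · exact hx.1 h
  have h4 : (∑ b, q b) ^ Fintype.card ι = (∑ b, q b) * ((∑ b, q b) *
      ∏ x ∈ ((Finset.univ : Finset ι).erase i).erase j, (∑ b, q b)) := by
    rw [Finset.mul_prod_erase _ (fun _ => ∑ b, q b) hjm, Finset.mul_prod_erase _ (fun _ => ∑ b, q b) (Finset.mem_univ i)]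
    simp
  rw [h3, h4]; ring

open Classical in
theorem l2_aux (hv : ∀ c : ι → ℕ, 0 ≤ vv c ∧ vv c ≤ 1 ∧ (0 < vv c ↔ Monotone c))
    (q : Fin (N + 1) → ℝ) (hq : ∀ b, 0 < q b) (F : (ι → Fin (N + 1)) → ℝ) (ω : ℝ) (hω : 0 ≤ ω)
    (hF : ∀ (a : Fin N) (c d : ι → Fin (N + 1)), Monotone c → Monotone d → blk a c d → |F c - F d| ≤ ω) :
    (∑ b, q b) ^ 2 * (∑ a : Fin N, ∑ c : ι → Fin (N + 1),
        if ∃ i j : ι, i ≠ j ∧ (c i = a.castSucc ∨ c i = a.succ) ∧ (c j = a.castSucc ∨ c j = a.succ) then
          ww q c * (F c - cE (ww q) a F c) ^ 2 else 0) ≤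
      ω ^ 2 * (Fintype.card ι : ℝ) ^ 2 * (∑ a : Fin N, (q a.castSucc + q a.succ) ^ 2) *
        (∑ b, q b) ^ Fintype.card ι := by
  have hS : 0 ≤ ∑ b, q b := Finset.sum_nonneg fun b _ => (hq b).le
  have h1 : ∀ (a : Fin N) (c : ι → Fin (N + 1)),
      (if ∃ i j : ι, i ≠ j ∧ (c i = a.castSucc ∨ c i = a.succ) ∧ (c j = a.castSucc ∨ c j = a.succ) then
          ww q c * (F c - cE (ww q) a F c) ^ 2 else 0) ≤
      ∑ i : ι, ∑ j : ι, if i ≠ j then (ω ^ 2 *
        (if (c i = a.castSucc ∨ c i = a.succ) ∧ (c j = a.castSucc ∨ c j = a.succ) then ∏ k, q (c k) else 0)) else 0 := by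
    intro a c
    have hP : 0 ≤ ∏ k, q (c k) := Finset.prod_nonneg fun i _ => (hq _).le
    have hn : ∀ i j : ι, 0 ≤ (if i ≠ j then (ω ^ 2 *
        (if (c i = a.castSucc ∨ c i = a.succ) ∧ (c j = a.castSucc ∨ c j = a.succ) then ∏ k, q (c k) else 0)) else 0) := by
      intro i j
      split_ifs
      · positivity
      · simp
      · exact le_rfl
    by_cases h : ∃ i j : ι, i ≠ j ∧ (c i = a.castSucc ∨ c i = a.succ) ∧ (c j = a.castSucc ∨ c j = a.succ)
    · rw [if_pos h]
      obtain ⟨i, j, hij, hi, hj⟩ := h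
      have h2 : ww q c * (F c - cE (ww q) a F c) ^ 2 ≤ ω ^ 2 * ∏ k, q (c k) := by
        by_cases hc : Monotone c
        · have h3 := cE_close hv q hq F ω hF a c hc
          have h4 : (F c - cE (ww q) a F c) ^ 2 ≤ ω ^ 2 := by
            rw [← sq_abs (F c - cE (ww q) a F c)]
            exact pow_le_pow_left₀ (abs_nonneg _) h3 2
          have h5 : ww q c ≤ ∏ k, q (c k) := by
            rw [ww]
            exact mul_le_of_le_one_right hP (hv _).2.1
          calc ww q c * (F c - cE (ww q) a F c) ^ 2 ≤ (∏ k, q (c k)) * ω ^ 2 :=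
              mul_le_mul h5 h4 (sq_nonneg _) hP
            _ = _ := mul_comm _ _
        · rw [ww_zero q c hc, zero_mul]
          positivity
      refine h2.trans ?_
      refine le_trans ?_ (Finset.single_le_sum (fun i _ => Finset.sum_nonneg fun j _ => hn i j) (Finset.mem_univ i))
      refine le_trans ?_ (Finset.single_le_sum (fun j _ => hn i j) (Finset.mem_univ j))
      rw [if_pos hij, if_pos ⟨hi, hj⟩]
    · rw [if_neg h]
      exact Finset.sum_nonneg fun i _ => Finset.sum_nonneg fun j _ => hn i j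
  have h2 : ∀ a : Fin N, (∑ b, q b) ^ 2 * (∑ c : ι → Fin (N + 1),
        if ∃ i j : ι, i ≠ j ∧ (c i = a.castSucc ∨ c i = a.succ) ∧ (c j = a.castSucc ∨ c j = a.succ) then
          ww q c * (F c - cE (ww q) a F c) ^ 2 else 0) ≤
      ω ^ 2 * (Fintype.card ι : ℝ) ^ 2 * (q a.castSucc + q a.succ) ^ 2 * (∑ b, q b) ^ Fintype.card ι := by
    intro a
    calc _ ≤ (∑ b, q b) ^ 2 * (∑ c : ι → Fin (N + 1), ∑ i : ι, ∑ j : ι, if i ≠ j then (ω ^ 2 *
        (if (c i = a.castSucc ∨ c i = a.succ) ∧ (c j = a.castSucc ∨ c j = a.succ) then ∏ k, q (c k) else 0)) else 0) :=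
          mul_le_mul_of_nonneg_left (Finset.sum_le_sum fun c _ => h1 a c) (sq_nonneg _)
      _ = ∑ i : ι, ∑ j : ι, if i ≠ j then ω ^ 2 * ((∑ b, q b) ^ 2 * (∑ c : ι → Fin (N + 1),
        (if (c i = a.castSucc ∨ c i = a.succ) ∧ (c j = a.castSucc ∨ c j = a.succ) then ∏ k, q (c k) else 0))) else 0 := by
          rw [Finset.sum_comm, Finset.mul_sum]
          refine Finset.sum_congr rfl fun i _ => ?_
          rw [Finset.sum_comm, Finset.mul_sum]
          refine Finset.sum_congr rfl fun j _ => ?_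
          split_ifs with hij
          · rw [← Finset.mul_sum]; ring
          · simp
      _ ≤ ∑ i : ι, ∑ j : ι, ω ^ 2 * ((q a.castSucc + q a.succ) ^ 2 * (∑ b, q b) ^ Fintype.card ι) := by
          refine Finset.sum_le_sum fun i _ => Finset.sum_le_sum fun j _ => ?_
          split_ifs with hij
          · rw [sum_two q a i j hij]
          · positivity
      _ = _ := by
          simp only [Finset.sum_const, Finset.card_univ, nsmul_eq_mul]
          ring
  rw [Finset.mul_sum]
  refine (Finset.sum_le_sum fun a _ => h2 a).trans (le_of_eq ?_)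
  rw [Finset.mul_sum, Finset.sum_mul]

end

end Pool.Agent.Q137.OP
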