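import Pool.Agent.Q137.OP.L2
import Pool.Agent.Q289.OP.Stm2

/-!
# Project OP (jobs VSU, L1, L2 of helper289)
-/

set_option autoImplicit false

namespace Pool.Agent.Q137.OP

open Q289.OP

theorem vsu : S_VSU := fun _ _ _ _ _ a c i hi hj => vsu_aux a c i hi hj

theorem l1 : S_L1 := by
  intro ι _ _ _ N q hq F
  exact l1_aux q hq F

theorem l2 (h : S_VPOS) : S_L2 := by
  intro ι _ _ _ N q hq F ω hω hF
  exact l2_aux (h ι) q hq F ω hω hF

end Pool.Agent.Q137.OP
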